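import Pool.Agent.PSS.StmtsS6
import Pool.Agent.Helper52_PFD.FUL

/-!
# Squad PSS, row CLG: the corner of a block with an abelian defect group is in the class
-/

set_option autoImplicit false

open scoped BigOperators

noncomputable section

namespace Pool.Agent.PSS.H4

open Pool.Agent.Helper51_AWC Pool.Agent.Helper79_WRA Pool.Agent.PP Pool.Agent.PP.KF
open Pool.Agent.PP.K9 Pool.Agent.PP.K9.H97 Pool.Agent.PP.H75 Pool.Agent.PP.T3 Pool.Agent.PP.T2
open Pool.Agent.PFC (Jd Crn jal Cz cv mkj cv_mkj cv_mul cv_inj cv_one)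

attribute [local instance] Ideal.Quotient.field

theorem rt_unit {F G : Type} [Field F] [Group G] [Finite G] {e j z : G → F}
    (hj : mulF j j = j) (hej : mulF e j = j) (hz : IsCl z)
    (h : ∃ c, IsCl c ∧ mulF (mulF c z) e = e) (y : Crn hj) (hy : cv y = mulF j z) :
    ∃ u : Crn hj, u * y = 1 := by
  obtain ⟨c, hc, hce⟩ := h
  have comm : ∀ b : G → F, IsCl b → ma j * ma b = ma b * ma j := by
    intro b hb
    have h1 := mulF_comm_of (K := (⊤ : Subgroup G)) (a := j) (c := b)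
      (fun x hx => absurd (Subgroup.mem_top x) hx)
      (fun k _ => (cj_eq_iff k b).2 fun x => hb x k)
    rw [← ma_mul, h1, ma_mul]
  refine ⟨mkj hj c, ?_⟩
  apply cv_inj
  rw [cv_mul, cv_one, cv_mkj, hy]
  apply ma_injective
  have hJ : ma j * ma j = ma j := by rw [← ma_mul, hj]
  have hE : ma e * ma j = ma j := by rw [← ma_mul, hej]
  have hC : ma c * ma z * ma e = ma e := by rw [← ma_mul, ← ma_mul, hce]
  rw [ma_mul, ma_mul, ma_mul, ma_mul]
  calc ma j * (ma c * ma j) * (ma j * ma z)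
      = ma j * ma c * (ma j * ma j) * ma z := by simp only [mul_assoc]
    _ = ma j * ma c * (ma j * ma z) := by rw [hJ]; simp only [mul_assoc]
    _ = ma j * ma c * (ma z * (ma e * ma j)) := by rw [comm z hz, hE]
    _ = ma j * (ma c * ma z * ma e) * ma j := by simp only [mul_assoc]
    _ = ma j := by rw [hC, mul_assoc, hE, hJ]

theorem one_notMem {F V A : Type} [Field F] [CommGroup V] [Fintype V] [Ring A] [Algebra F A]
    {α : V →* A} (h : PFC.Tpv F α) : (1 : A) ∉ BKR (cw F α) ⊤ := by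
  classical
  intro h1
  have h2 := h.free (fun u => if u = 1 then 1 else 0) (by
    have h3 : ∑ u, (if u = 1 then (1 : F) else 0) • α u = 1 := by
      rw [Finset.sum_eq_single (1 : V)]
      · rw [if_pos rfl, map_one, one_smul]
      · intro b _ hb
        rw [if_neg hb, zero_smul]
      · intro h4
        exact absurd (Finset.mem_univ _) h4
    rw [h3]
    exact h1)
  have h3 := congrFun h2 1
  simp at h3

/-- row CLG -/
theorem clg (rfg : RfgStmt) (blg : BlgStmt) (ffa : PFC.FfaStmt) (fps : PFC.FpsStmt)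
    (unt : PFC.UntStmt) (lft : T8.LftStmt) (omi : T8.OmiStmt) (knz : T8.KnzStmt)
    (dgc : DgcStmt) (inx : K9.InxStmt) : ClgStmt := by
  intro ℓ hℓ M iM hM G iG iFG e V γ hL j hj W E iW iFW iE ι hι hr φ hT1 hT2 hjj hv
  obtain ⟨hfin, hfrm, hloc, htop⟩ := ffa ℓ M hM G e V γ hL j hj W ι hι hr hjj hv
  have hje : mulF e j = j := (PFC.H52.jun ℓ M hM G e V γ hL j hj).2.1
  refine ⟨hfin, ?_, ?_, ?_, ?_⟩
  · obtain ⟨Ω, i1, i2, b, c, h1, h2⟩ := fps ℓ M hM G e V γ hL j hj W E ι hι hr φ hT1 hjj hv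
    exact ⟨Ω, i1, i2, b, c, h1, h2⟩
  · intro x
    obtain ⟨t, ht, htw⟩ := hT2 x
    exact unt ℓ M hM G e V γ hL j hj W ι hι hr hjj hv t ht (φ x) htw
  · obtain ⟨lam, K, iK, x, y, h1, h2⟩ := rfg (FF M) G W ι hι j hjj hv
    refine ⟨lam, K, iK, x, y, h1, ?_⟩
    rw [hr] at h2
    obtain ⟨χ, hχ⟩ := T8.H14.irrE_nonempty M hL.blk.1 hL.blk.2.1
    have hne := PFD.H52.res_ne lft omi knz dgc inx hM hL hj hχ
    have hcl : IsCl (tsm V j) := tsm_cl fun v hv' => (cj_eq_iff v j).2 fun g => hj.iv v hv' g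
    refine rt_unit hjj hje hcl ?_ _ h2
    rcases H50.blk_dich hL.blk hcl with ⟨n, hn⟩ | h
    · exact absurd (H50.zero_of_nil hL.blk.1.1 hcl (H50.isChar_res (M := M) hχ.1) hχ.2 hn) hne
    · exact h
  · intro Q a ha h1 _ h3
    exact blg (FF M) W (Crn hjj) (jal hjj ι hv) hloc (one_notMem htop) Q a ha h1 h3

end Pool.Agent.PSS.H4
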