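import Pool.Agent.PSS.StmtsS6
import Pool.Agent.Helper50_PP.Ffa
import Pool.Agent.Helper50_PP.Bid
import Pool.Agent.Helper52_PFC.JUN
import Pool.Agent.Helper61_PFD.CTR

/-!
# Squad PSS, row DZC: the centre of the corner
-/

set_option autoImplicit false

noncomputable section

namespace Pool.Agent.PSS.H4

open Pool.Agent.Helper51_AWC Pool.Agent.Helper79_WRA Pool.Agent.PP Pool.Agent.PP.KF
open Pool.Agent.PP.K9 Pool.Agent.PP.K9.H97 Pool.Agent.PP.H75 Pool.Agent.PP.T3 Pool.Agent.PP.T2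
open Pool.Agent.PFC (Jd Crn jal Cz cv)

attribute [local instance] Ideal.Quotient.field

/-- row DZC -/
theorem dzc (ful : PFD.FulStmt) : DzcStmt := by
  intro ℓ hℓ M iM hM G iG iFG e V γ hL j hj hjj
  have hje : mulF e j = j := (PFC.H52.jun ℓ M hM G e V γ hL j hj).2.1
  have hful := ful ℓ M hM G e V γ hL j hj
  rw [PFD.H61.ctr (FF M) G e j hL.blk.1 hje hjj hful]
  exact H50.chp ℓ hℓ.out M hM G e hL.blk.1

end Pool.Agent.PSS.H4
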