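import Pool.Agent.Helper60_PSS.BLA

/-!
# Squad PSS, row BLB: a local datum gives a central element in `BKR (cw) ⊤` which is not nilpotent
-/

open scoped BigOperators

noncomputable section

namespace Pool.Agent.PSS.H4

open Pool.Agent.PFC (tw IsTv)
open Pool.Agent.PFD.D2b (FrR)
open Pool.Agent.PSS.H60

/-- A trace from `P` to the abelian group `V` is in the Brauer kernel at `R` if `R` is not contained
in `P`. -/
theorem trace_bk (fpx : S0.FpxStmt) {F V M : Type} [CommRing F] [CommGroup V] [Finite V]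
    [AddCommGroup M] [Module F M] (ρ : V →* (M →ₗ[F] M)) (P R : Subgroup V) (m : M)
    (hm : m ∈ FxR ρ P) (S : Finset V) (hS : IsTv P ⊤ S) (hPR : ¬ R ≤ P) :
    ∑ s ∈ S, ρ s m ∈ BKR ρ R := by
  classical
  let _ : Fintype (V ⧸ P) := Fintype.ofFinite _
  have hρ : ∀ a b : V, a⁻¹ * b ∈ P → ρ a m = ρ b m := by
    intro a b h
    have h1 : ρ b m = ρ a (ρ (a⁻¹ * b) m) := by
      have h2 : ρ b = ρ a * ρ (a⁻¹ * b) := by rw [← map_mul, mul_inv_cancel_left]
      rw [h2]
      rfl
    rw [h1, hm _ h]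
  let g : V ⧸ P → M := fun κ => ρ (Quotient.out κ) m
  have hg : ∀ v : V, g (QuotientGroup.mk v) = ρ v m := by
    intro v
    apply hρ
    rw [← QuotientGroup.eq]
    exact Quotient.out_eq _
  have h1 := fpx F V M (V ⧸ P) ρ R g ∅ (by
    intro h _ κ
    obtain ⟨v, rfl⟩ := QuotientGroup.mk_surjective κ
    change g (QuotientGroup.mk (h * v)) = _
    rw [hg, hg, map_mul]
    rfl) (by
    intro κ
    constructor
    · intro h
      exact absurd h (Finset.notMem_empty _)
    · intro h
      exfalso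
      apply hPR
      intro r hr
      obtain ⟨v, rfl⟩ := QuotientGroup.mk_surjective κ
      have h2 : (QuotientGroup.mk (r * v) : V ⧸ P) = QuotientGroup.mk v := h r hr
      have h3 := QuotientGroup.eq.1 h2.symm
      rwa [mul_comm r v, inv_mul_cancel_left] at h3)
  rw [Finset.sum_empty, sub_zero] at h1
  have h2 : ∑ s ∈ S, ρ s m = ∑ κ : V ⧸ P, g κ := by
    refine Finset.sum_bij (fun s _ => QuotientGroup.mk s) (fun _ _ => Finset.mem_univ _) ?_ ?_ ?_
    · intro s hs s' hs' h
      have h3 := QuotientGroup.eq.1 h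
      obtain ⟨t, -, ht⟩ := hS.2 s' (Subgroup.mem_top _)
      rw [ht s ⟨hs, h3⟩, ht s' ⟨hs', by rw [inv_mul_cancel]; exact P.one_mem⟩]
    · intro κ _
      obtain ⟨v, rfl⟩ := QuotientGroup.mk_surjective κ
      obtain ⟨t, ⟨ht, ht'⟩, -⟩ := hS.2 v (Subgroup.mem_top _)
      exact ⟨t, ht, QuotientGroup.eq.2 ht'⟩
    · intro s _
      rw [hg]
  rw [h2]
  exact h1

/-- representatives of the fibres of a map -/
theorem exists_repr {E X : Type} [Fintype E] (r : E → X) :
    ∃ T : Finset E, ∀ e, ∃! t, t ∈ T ∧ r t = r e := by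
  classical
  have hp : ∀ e : E, ∃ t : E, r t = r e := fun e => ⟨e, rfl⟩
  let p : X → E → E := fun f e => if h : ∃ t : E, r t = f then h.choose else e
  have hpe : ∀ e e', r e = r e' → p (r e) e = p (r e') e' := by
    intro e e' h
    have h1 : ∃ t : E, r t = r e := ⟨e, rfl⟩
    have h2 : ∃ t : E, r t = r e' := ⟨e', rfl⟩
    change (if h : ∃ t : E, r t = r e then h.choose else e) =
      (if h : ∃ t : E, r t = r e' then h.choose else e')
    rw [dif_pos h1, dif_pos h2]
    congr 1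
    rw [h]
  have hpr : ∀ e, r (p (r e) e) = r e := by
    intro e
    have h1 : ∃ t : E, r t = r e := ⟨e, rfl⟩
    change r (if h : ∃ t : E, r t = r e then h.choose else e) = _
    rw [dif_pos h1]
    exact h1.choose_spec
  refine ⟨Finset.univ.image fun e => p (r e) e, ?_⟩
  intro e
  refine ⟨p (r e) e, ⟨Finset.mem_image_of_mem _ (Finset.mem_univ e), hpr e⟩, ?_⟩
  rintro t ⟨ht, ht'⟩
  obtain ⟨e', -, rfl⟩ := Finset.mem_image.1 ht
  apply hpe
  rw [← hpr e', ht']

section count

variable {V E : Type} [CommGroup V] [Group E] (φ : E →* MulAut V) (R : Subgroup V)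

theorem card_dvd (T : Finset E) [DecidablePred fun t => t ∈ NE φ R]
    (hT : ∀ e : E, ∃! t, t ∈ T ∧ ∀ q ∈ R, (φ t)⁻¹ q = (φ e)⁻¹ q) :
    (T.filter fun t => t ∈ NE φ R).card ∣ Nat.card E := by
  classical
  have hCN : ∀ c ∈ CE φ R, c ∈ NE φ R := by
    intro c hc
    change R.map (φ c).toMonoidHom = R
    ext v
    constructor
    · rintro ⟨w, hw, rfl⟩
      have h1 : φ c w = w := hc w hw
      change φ c w ∈ R
      rw [h1]
      exact hw
    · intro hv
      exact ⟨v, hv, hc v hv⟩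
  let T' := T.filter fun t => t ∈ NE φ R
  let f : CE φ R × T' → NE φ R := fun p =>
    ⟨(p.1 : E) * (p.2 : E), (NE φ R).mul_mem (hCN _ p.1.2) (Finset.mem_filter.1 p.2.2).2⟩
  have hr : ∀ (c : CE φ R) (t : E), ∀ q ∈ R, (φ ((c : E) * t))⁻¹ q = (φ t)⁻¹ q := by
    intro c t q hq
    have h1 : (φ (c : E))⁻¹ q = q := by
      apply (φ (c : E)).injective
      rw [MulAut.apply_inv_self]
      exact (c.2 q hq).symm
    rw [map_mul, mul_inv_rev, MulAut.mul_apply, h1]
  have hf : Function.Bijective f := by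
    constructor
    · rintro ⟨c, t⟩ ⟨c', t'⟩ h
      have h1 : (c : E) * (t : E) = (c' : E) * (t' : E) := congrArg Subtype.val h
      obtain ⟨s, -, hs⟩ := hT (c * t)
      have h2 : (t : E) = (t' : E) := by
        rw [hs t ⟨(Finset.mem_filter.1 t.2).1, fun q hq => (hr c t q hq).symm⟩,
          hs t' ⟨(Finset.mem_filter.1 t'.2).1, fun q hq => by rw [h1]; exact (hr c' t' q hq).symm⟩]
      have h3 : (c : E) = (c' : E) := by
        rw [h2] at h1
        exact mul_right_cancel h1
      exact Prod.ext (Subtype.ext h3) (Subtype.ext h2)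
    · rintro ⟨e, he⟩
      obtain ⟨t, ⟨ht, ht'⟩, -⟩ := hT e
      have hc : e * t⁻¹ ∈ CE φ R := by
        intro q hq
        rw [map_mul, map_inv, MulAut.mul_apply, ht' q hq, MulAut.apply_inv_self]
      have htN : t ∈ NE φ R := by
        have h1 : t = (e * t⁻¹)⁻¹ * e := by
          rw [mul_inv_rev, inv_inv, inv_mul_cancel_right]
        rw [h1]
        exact (NE φ R).mul_mem ((NE φ R).inv_mem (hCN _ hc)) he
      refine ⟨⟨⟨e * t⁻¹, hc⟩, ⟨t, Finset.mem_filter.2 ⟨ht, htN⟩⟩⟩, ?_⟩
      apply Subtype.ext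
      change e * t⁻¹ * t = e
      rw [inv_mul_cancel_right]
  have h1 : Nat.card (CE φ R) * Nat.card T' = Nat.card (NE φ R) := by
    rw [← Nat.card_prod]
    exact Nat.card_congr (Equiv.ofBijective f hf)
  have h2 : Nat.card T' = T'.card := by
    rw [Nat.card_eq_fintype_card, Fintype.card_coe]
  rw [h2] at h1
  exact (Dvd.intro_left _ h1).trans (Subgroup.card_subgroup_dvd_card _)

end count

theorem blb (fpx : S0.FpxStmt) (zrt : S0.ZrtStmt) (bqx : S0.BqxStmt) (bki : S0.BkiStmt)
    (bpu : S0.BpuStmt) (mck : S0.MckStmt) : BlbStmt := by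
  classical
  intro ℓ _ F V E A K _ _ _ _ _ _ _ _ _ φ α lam x y u hV hE hper huni hRF hu R e m S hb
  have hℓ : (ℓ : F) = 0 := CharP.cast_eq_zero F ℓ
  have hone : ∀ {P : Subgroup V}, (1 : A) ∈ FxR (cw F α) P := by
    intro P
    rw [mem_cw]
    intro q _
    rw [mul_one, one_mul]
  have hfm : ∀ {P : Subgroup V} {a a' : A}, a ∈ FxR (cw F α) P → a' ∈ FxR (cw F α) P →
      a * a' ∈ FxR (cw F α) P := by
    intro P a a' ha ha'
    rw [mem_cw] at *
    intro q hq
    rw [← mul_assoc, ha q hq, mul_assoc, ha' q hq, mul_assoc]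
  have hcfx : ∀ {a : A}, (∀ c, c * a = a * c) → ∀ {P : Subgroup V}, a ∈ FxR (cw F α) P := by
    intro a ha P
    rw [mem_cw]
    intro q _
    exact ha _
  have hζc : ∀ c, c * ∑ k, x k * y k = (∑ k, x k * y k) * c := by
    intro c
    have h1 := zrt F V A K α lam x y hRF 1 hone c
    simp only [mul_one] at h1
    exact h1
  have hrc : ∀ c, c * ∑ k, x k * e * y k = (∑ k, x k * e * y k) * c :=
    zrt F V A K α lam x y hRF e hb.fx
  have hu' : (∑ k, x k * y k) * u = 1 := by rw [← hζc, hu]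
  have huc : ∀ c, c * u = u * c := by
    intro c
    calc c * u = u * (∑ k, x k * y k) * (c * u) := by rw [hu, one_mul]
      _ = u * ((∑ k, x k * y k) * c) * u := by simp only [mul_assoc]
      _ = u * (c * ∑ k, x k * y k) * u := by rw [hζc]
      _ = u * c * ((∑ k, x k * y k) * u) := by simp only [mul_assoc]
      _ = u * c := by rw [hu', mul_one]
  have huni' : ∀ g : E, ∃ y y' : A, UF φ α g y y' := by
    intro g
    obtain ⟨y, y', h1, h2, h3⟩ := huni g
    exact ⟨y, y', h1, h2, h3⟩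
  choose n n' hn using huni'
  have hconjfx : ∀ g : E, n g * e * n' g ∈ FxR (cw F α) ⊤ := by
    intro g
    have := (hn g).fx hb.fx
    rwa [map_top_eq] at this
  -- the Mackey formula
  have key : ∀ P : Subgroup V, ∃ (B : Type) (_ : Ring B) (_ : Algebra F B) (αB : V →* B)
      (β : A → B) (_ : S0.IsBQ F α P αB β) (KB : Type) (_ : Fintype KB) (xB yB : KB → B)
      (T : Finset E), (∀ e : E, ∃! t, t ∈ T ∧ ∀ q ∈ P, (φ t)⁻¹ q = (φ e)⁻¹ q) ∧
      ∀ a ∈ FxR (cw F α) ⊤,
        β (∑ k, x k * a * y k) = ∑ t ∈ T, ∑ k, xB k * β (n t * a * n' t) * yB k := by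
    intro P
    obtain ⟨B, iB, iA, αB, β, hB⟩ := bqx F V A α P
    obtain ⟨-, -, lamB, KB, iK, xB, yB, hRB, hlB⟩ := bpu ℓ F V E A B K φ α P αB β lam x y
      (CE φ P) hℓ hV hper huni hRF hB (fun e => Iff.rfl)
    obtain ⟨T, hT⟩ := exists_repr (fun (e : E) (q : P) => (φ e)⁻¹ (q : V))
    have hT' : ∀ e : E, ∃! t, t ∈ T ∧ ∀ q ∈ P, (φ t)⁻¹ q = (φ e)⁻¹ q := by
      intro e
      obtain ⟨t, ⟨ht, ht1⟩, ht2⟩ := hT e
      refine ⟨t, ⟨ht, fun q hq => congrFun ht1 ⟨q, hq⟩⟩, ?_⟩
      rintro t' ⟨h1, h2⟩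
      exact ht2 t' ⟨h1, funext fun q => h2 q q.2⟩
    refine ⟨B, iB, iA, αB, β, hB, KB, iK, xB, yB, T, hT', ?_⟩
    exact mck ℓ F V E A B K KB φ α P αB β lam x y lamB xB yB n n' T hℓ hV hper hRF hB hRB
      hlB (fun e => ⟨(hn e).l, (hn e).r, (hn e).c⟩) hT'
  refine ⟨u * ∑ k, x k * e * y k, ?_, ?_, ?_⟩
  · intro a
    rw [mul_assoc, ← hrc, ← mul_assoc, ← huc, mul_assoc]
  · -- the Brauer kernel
    obtain ⟨B, _, _, αB, β, hB, KB, _, xB, yB, T, hT, hmk⟩ := key ⊤
    have hlt : R < ⊤ := lt_top_iff_ne_top.2 hb.lt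
    have he0 : e ∈ BKR (cw F α) ⊤ := by
      rw [hb.tr]
      exact Submodule.subset_span ⟨R, S, m, hlt, hb.tv, hb.fm, rfl⟩
    have h1 : β (∑ k, x k * e * y k) = 0 := by
      rw [hmk e hb.fx]
      refine Finset.sum_eq_zero fun t _ => Finset.sum_eq_zero fun k _ => ?_
      have h2 : n t * e * n' t ∈ BKR (cw F α) ⊤ := by
        have := (hn t).bk he0
        rwa [map_top_eq] at this
      rw [(hB.ker _ (hconjfx t)).2 h2, mul_zero, zero_mul]
    have h3 := (hB.ker _ (hcfx hrc)).1 h1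
    exact (bki F V A α ⊤ u (hcfx huc) _ h3).1
  · -- not nilpotent
    obtain ⟨B, _, _, αB, β, hB, KB, _, xB, yB, T, hT, hmk⟩ := key R
    have fx_R : ∀ {a : A}, a ∈ FxR (cw F α) ⊤ → a ∈ FxR (cw F α) R :=
      fun ha v _ => ha v (Subgroup.mem_top v)
    have βsub : ∀ a ∈ FxR (cw F α) R, ∀ a' ∈ FxR (cw F α) R, β (a - a') = β a - β a' := by
      intro a ha a' ha'
      have h1 := hB.add (a - a') (Submodule.sub_mem _ ha ha') a' ha'
      rw [sub_add_cancel] at h1
      rw [h1, add_sub_cancel_right]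
    have βeq : ∀ a ∈ FxR (cw F α) R, ∀ a' ∈ FxR (cw F α) R,
        a - a' ∈ BKR (cw F α) R → β a = β a' := by
      intro a ha a' ha' h
      rw [← hB.ker _ (Submodule.sub_mem _ ha ha'), βsub a ha a' ha', sub_eq_zero] at h
      exact h
    have heR : e ∈ FxR (cw F α) R := fx_R hb.fx
    obtain ⟨f, hf⟩ : ∃ f : B, f = β e := ⟨_, rfl⟩
    have hff : f * f = f := by
      rw [hf, ← hB.mul _ heR _ heR]
      exact βeq _ (hfm heR heR) _ heR hb.id
    have hfc : ∀ z : B, f * z = z * f := by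
      intro z
      obtain ⟨a, ha, rfl⟩ := hB.surj z
      rw [hf, ← hB.mul _ heR _ ha, ← hB.mul _ ha _ heR]
      exact βeq _ (hfm heR ha) _ (hfm ha heR) (hb.cn a ha)
    have hf0 : f ≠ 0 := by
      intro h
      rw [hf] at h
      exact hb.nb ((hB.ker _ heR).1 h)
    have hin : ∀ t ∈ NE φ R, β (n t * e * n' t) = f := by
      intro t ht
      rw [hf]
      exact βeq _ (fx_R (hconjfx t)) _ heR (hb.inv t ht _ _ (hn t).l (hn t).r (hn t).c)
    have hout : ∀ t, t ∉ NE φ R → β (n t * e * n' t) = 0 := by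
      intro t ht
      rw [hB.ker _ (fx_R (hconjfx t))]
      have h1 : n t * e * n' t = ∑ s ∈ S.image (φ t), cw F α s (n t * m * n' t) := by
        rw [Finset.sum_image fun a _ b _ h => (φ t).injective h]
        have h2 : n t * e * n' t = ((LinearMap.mulLeft F (n t)).comp
            (LinearMap.mulRight F (n' t))) e := by
          change _ = n t * (e * n' t)
          rw [mul_assoc]
        rw [h2, hb.tr, map_sum]
        refine Finset.sum_congr rfl fun s _ => ?_
        rw [(hn t).hom]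
        change cw F α (φ t s) (n t * (m * n' t)) = _
        rw [mul_assoc]
      rw [h1]
      refine trace_bk fpx (cw F α) (R.map (φ t).toMonoidHom) R _ ((hn t).fx hb.fm) _ ?_ ?_
      · refine ⟨fun _ _ => Subgroup.mem_top _, ?_⟩
        intro p _
        obtain ⟨s, ⟨hs, hs1⟩, hs2⟩ := hb.tv.2 ((φ t)⁻¹ p) (Subgroup.mem_top _)
        refine ⟨φ t s, ⟨Finset.mem_image_of_mem _ hs, ?_⟩, ?_⟩
        · refine ⟨_, hs1, ?_⟩
          change φ t (s⁻¹ * (φ t)⁻¹ p) = _
          rw [map_mul, map_inv, MulAut.apply_inv_self]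
        · rintro s' ⟨h2, h3⟩
          obtain ⟨w, hw, rfl⟩ := Finset.mem_image.1 h2
          obtain ⟨r, hr, hr1⟩ := h3
          have h4 : w⁻¹ * (φ t)⁻¹ p ∈ R := by
            have h5 : w⁻¹ * (φ t)⁻¹ p = r := by
              apply (φ t).injective
              rw [map_mul, map_inv, MulAut.apply_inv_self]
              exact hr1.symm
            rw [h5]
            exact hr
          rw [hs2 w ⟨hw, h4⟩]
      · intro h
        apply ht
        change R.map (φ t).toMonoidHom = R
        symm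
        apply Subgroup.eq_of_le_of_card_ge h
        exact (Nat.card_congr (R.equivMapOfInjective _ (φ t).injective).toEquiv).ge
    obtain ⟨Q, hQ⟩ : ∃ Q : B, Q = ∑ k, xB k * yB k := ⟨_, rfl⟩
    obtain ⟨T', hT'⟩ : ∃ T' : Finset E, T' = T.filter fun t => t ∈ NE φ R := ⟨_, rfl⟩
    have hβe : β (∑ k, x k * e * y k) = (T'.card : B) * (f * Q) := by
      rw [hmk e hb.fx]
      have h1 : ∀ t ∈ T, ∑ k, xB k * β (n t * e * n' t) * yB k =
          if t ∈ NE φ R then f * Q else 0 := by
        intro t _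
        by_cases ht : t ∈ NE φ R
        · rw [if_pos ht, hin t ht, hQ, Finset.mul_sum]
          refine Finset.sum_congr rfl fun k _ => ?_
          rw [← hfc, mul_assoc]
        · rw [if_neg ht, hout t ht]
          refine Finset.sum_eq_zero fun k _ => ?_
          rw [mul_zero, zero_mul]
      rw [Finset.sum_congr rfl h1, ← Finset.sum_filter, ← hT', Finset.sum_const, nsmul_eq_mul]
    have hβ1 : β (∑ k, x k * y k) = (T.card : B) * Q := by
      have h1 := hmk 1 hone
      simp only [mul_one] at h1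
      rw [h1]
      have h2 : ∀ t ∈ T, ∑ k, xB k * β (n t * n' t) * yB k = Q := by
        intro t _
        rw [(hn t).l, hB.one, hQ]
        simp only [mul_one]
      rw [Finset.sum_congr rfl h2, Finset.sum_const, nsmul_eq_mul]
    have huB : β u * ((T.card : B) * Q) = 1 := by
      rw [← hβ1, ← hB.mul _ (hcfx huc) _ (hcfx hζc), hu, hB.one]
    obtain ⟨z, hz⟩ : ∃ z : A, z = u * ∑ k, x k * e * y k := ⟨_, rfl⟩
    rw [← hz]
    have hzR : z ∈ FxR (cw F α) R := by
      rw [hz]
      exact hfm (hcfx huc) (hcfx hrc)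
    have hβz : (T.card : B) * β z = (T'.card : B) * f := by
      rw [hz, hB.mul _ (hcfx huc) _ (hcfx hrc), hβe]
      have c1 : ∀ b : B, (T.card : B) * b = b * (T.card : B) := fun b => Nat.cast_commute _ _
      have c2 : ∀ b : B, (T'.card : B) * b = b * (T'.card : B) := fun b => Nat.cast_commute _ _
      calc (T.card : B) * (β u * ((T'.card : B) * (f * Q)))
          = (T.card : B) * β u * (T'.card : B) * (f * Q) := by simp only [mul_assoc]
        _ = (T'.card : B) * ((T.card : B) * β u * (f * Q)) := by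
            rw [← c2]
            simp only [mul_assoc]
        _ = (T'.card : B) * (β u * (T.card : B) * (f * Q)) := by rw [c1]
        _ = (T'.card : B) * (β u * ((T.card : B) * f * Q)) := by simp only [mul_assoc]
        _ = (T'.card : B) * (β u * (f * (T.card : B) * Q)) := by rw [c1]
        _ = (T'.card : B) * (β u * f * ((T.card : B) * Q)) := by simp only [mul_assoc]
        _ = (T'.card : B) * (f * β u * ((T.card : B) * Q)) := by rw [hfc]
        _ = (T'.card : B) * (f * (β u * ((T.card : B) * Q))) := by simp only [mul_assoc]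
        _ = (T'.card : B) * f := by rw [huB, mul_one]
    have hpfx : ∀ N : ℕ, z ^ N ∈ FxR (cw F α) R ∧ β (z ^ N) = β z ^ N := by
      intro N
      induction N with
      | zero =>
        rw [pow_zero, pow_zero]
        exact ⟨hone, hB.one⟩
      | succ N ih =>
        rw [pow_succ, pow_succ, hB.mul _ ih.1 _ hzR, ih.2]
        exact ⟨hfm ih.1 hzR, rfl⟩
    rintro ⟨N, hN⟩
    have h0 : β (0 : A) = 0 := (hB.ker 0 (Submodule.zero_mem _)).2 (Submodule.zero_mem _)
    have h1 : β z ^ (N + 1) = 0 := by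
      rw [← (hpfx (N + 1)).2, pow_succ, hN, zero_mul, h0]
    have h2 : ((T'.card : B) * f) ^ (N + 1) = 0 := by
      rw [← hβz, (Nat.cast_commute _ _ : Commute (T.card : B) (β z)).mul_pow, h1, mul_zero]
    have hfN : f ^ (N + 1) = f := by
      have : IsIdempotentElem f := hff
      exact this.pow_succ_eq N
    rw [(Nat.cast_commute _ _ : Commute (T'.card : B) f).mul_pow, hfN] at h2
    have hTc : (T'.card : F) ≠ 0 := by
      intro h
      apply hE
      have h3 := (CharP.cast_eq_zero_iff F ℓ _).1 h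
      rw [hT'] at h3
      exact h3.trans (card_dvd φ R T hT)
    have h3 : ((T'.card : F) ^ (N + 1)) • f = 0 := by
      rw [← h2, Algebra.smul_def, map_pow, map_natCast]
    rcases smul_eq_zero.1 h3 with h4 | h4
    · exact pow_ne_zero _ hTc h4
    · exact hf0 h4

end Pool.Agent.PSS.H4
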